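import Pool.Agent.Y121.CF.Main

/-!
Let `𝒜` be a saturated dg category over a field `k` of characteristic zero,
`A = K_0(𝒜^op ⊗ 𝒜)` its ring of noncommutative self-correspondences, acting on
`Vp = HP^+(𝒜)` and `Vm = HP^-(𝒜)`.  The supertrace of a correspondence is an Euler characteristic;
we only use that it is rational.  Then `C_NC(𝒜)` does not depend on the coefficient field `F`, and
it holds if and only if some correspondence (with integral coefficients, or with coefficients in
any `F`) has coprime characteristic polynomials on `HP^+(𝒜)` and `HP^-(𝒜)`.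
-/

set_option autoImplicit false

open Pool.Agent.Y121.CF in
theorem Pool.Agent.Results.MP_eadf0f_ag.CoefficientField.result
    {k A Vp Vm : Type} [Field k] [CharZero k] [Ring A]
    [AddCommGroup Vp] [Module k Vp] [Module.Finite k Vp]
    [AddCommGroup Vm] [Module k Vm] [Module.Finite k Vm]
    (ρp : A →+* Module.End k Vp) (ρm : A →+* Module.End k Vm)
    (hχ : ∀ x : A, ∃ q : ℚ, LinearMap.trace k Vp (ρp x) - LinearMap.trace k Vm (ρm x) = (q : k))
    (F L : Type) [Field F] [Field L] [Algebra k L] [Algebra F L] :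
    [CNC F L ρp ρm,
      Sep F L ρp ρm,
      ∃ r : A, IsCoprime (ρp r).charpoly (ρm r).charpoly,
      ∃ (a : A) (N : ℕ), N ≠ 0 ∧ ρp a = (N : Module.End k Vp) ∧ ρm a = 0].TFAE := by
  tfae_have 1 → 2 := sep_of_cnc F L ρp ρm
  tfae_have 2 → 3 := sep_int F L ρp ρm
  tfae_have 3 → 4 := fun ⟨r, hr⟩ => proj_of_sep ρp ρm hχ r hr
  tfae_have 4 → 1 := cnc_of_proj F L ρp ρm
  tfae_finish
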