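import Pool.Agent.Y121.ZI.ILaw
import Pool.Agent.Y121.ZI.KunDefs
import Pool.Agent.Y447.ZI.Clas

/-!
# MP_eadf0f_ag: the index law for the noncommutative Künneth projectors

For every saturated dg category `A` with `HP(A) ≠ 0`: the dimension of the space of the classes on
`X = A^{⊗ n} ⊗ (A^{⊗ n})^op` which are generated, under linear combinations, compositions and tensor
products, by noncommutative correspondences and the Künneth projector `π^+` of `A`, divided by the
rank of `K_0(X)` modulo numerical equivalence, converges to some `N` in `{1, 2, 3, …, ∞}`; `N = 1`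
if and only if the Künneth projectors of `A` are algebraic and homological and numerical equivalence
agree on all `A^{⊗ m} ⊗ (A^{⊗ n})^op`; if `N` is finite, then homological and numerical equivalence
agree and all these classes are generated by elements of `K_0` and at most `N - 1` of them.
-/

universe u v w

namespace Pool.Agent.Results.MP_eadf0f_ag.IndexLaw

open Pool.Agent.Y121.ZI Pool.Agent.Y121.ZI.NCTheory

variable {K : Type u} [Field K] {T : NCTheory.{u, v, w} K} {A : T.Obj}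

/-- The system generated by the correspondences and the Künneth projector. -/
def gen (T : NCTheory.{u, v, w} K) (A X Y : T.Obj) : Maps K (T.H X) (T.H Y) :=
  ⨅ S : {S : ∀ X Y, Maps K (T.H X) (T.H Y) // T.Closed A S}, S.1 X Y

lemma mem_gen {X Y : T.Obj} {f : T.H X →ₗ[K] T.H Y} :
    f ∈ gen T A X Y ↔ ∀ S : ∀ X Y, Maps K (T.H X) (T.H Y), T.Closed A S → f ∈ S X Y := by
  rw [gen, AddSubgroup.mem_iInf]
  exact ⟨fun h S hS => h ⟨S, hS⟩, fun h S => h S.1 S.2⟩

lemma closed_gen : T.Closed A (gen T A) := by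
  refine ⟨fun X Y f hf c => ?_, fun X Y f hf => ?_, ?_, fun X Y Z f hf g hg => ?_,
    fun X Y Z W f hf g hg => ?_⟩
  · exact mem_gen.2 fun S hS => hS.1 X Y f (mem_gen.1 hf S hS) c
  · exact mem_gen.2 fun S hS => hS.2.1 X Y hf
  · exact mem_gen.2 fun S hS => hS.2.2.1
  · exact mem_gen.2 fun S hS => hS.2.2.2.1 X Y Z f (mem_gen.1 hf S hS) g (mem_gen.1 hg S hS)
  · exact mem_gen.2 fun S hS => hS.2.2.2.2 X Y Z W f (mem_gen.1 hf S hS) g (mem_gen.1 hg S hS)

lemma mem_values {X : T.Obj} {S : Maps K (T.H T.one) (T.H X)} (hS : Scaled S) {x : T.H X} :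
    x ∈ values S T.e ↔ ∃ f ∈ S, f T.e = x := by
  constructor
  · intro hx
    rw [values] at hx
    induction hx using Submodule.span_induction with
    | mem x hx => exact hx
    | zero => exact ⟨0, S.zero_mem, rfl⟩
    | add x y _ _ hx hy =>
      obtain ⟨f, hf, rfl⟩ := hx
      obtain ⟨g, hg, rfl⟩ := hy
      exact ⟨f + g, S.add_mem hf hg, rfl⟩
    | smul c x _ hx =>
      obtain ⟨f, hf, rfl⟩ := hx
      exact ⟨c • f, hS f hf c, rfl⟩
  · exact fun h => Submodule.subset_span h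

lemma mem_kcl {X : T.Obj} {x : T.H X} : x ∈ T.kcl A X ↔ ∃ f ∈ gen T A T.one X, f T.e = x := by
  rw [NCTheory.kcl]
  simp only [Submodule.mem_iInf]
  constructor
  · intro h
    exact (mem_values (closed_gen.1 _ _)).1 (h (gen T A) closed_gen)
  · rintro ⟨f, hf, rfl⟩ S hS
    exact (mem_values (hS.1 _ _)).2 ⟨f, mem_gen.1 hf S hS, rfl⟩

lemma S_le_gen {X Y : T.Obj} {f : T.H X →ₗ[K] T.H Y} (hf : f ∈ T.S X Y) : f ∈ gen T A X Y := by
  have hf' : f ∈ Submodule.span K (T.cor X Y : Set (T.H X →ₗ[K] T.H Y)) := hf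
  clear hf
  induction hf' using Submodule.span_induction with
  | mem f hf => exact closed_gen.2.1 _ _ hf
  | zero => exact AddSubgroup.zero_mem _
  | add f g hf hg hf' hg' => exact AddSubgroup.add_mem _ hf' hg'
  | smul c f hf hf' => exact closed_gen.1 _ _ f hf' c

lemma kcl_op {X Y : T.Obj} {ψ : T.H X →ₗ[K] T.H Y} (hψ : ψ ∈ gen T A X Y) {x : T.H X}
    (hx : x ∈ T.kcl A X) : ψ x ∈ T.kcl A Y := by
  obtain ⟨φ, hφ, rfl⟩ := mem_kcl.1 hx
  exact mem_kcl.2 ⟨ψ ∘ₗ φ, closed_gen.2.2.2.1 _ _ _ φ hφ ψ hψ, rfl⟩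

/-- The classes generated by the correspondences and the Künneth projector form a stable system of
classes. -/
def cls (T : NCTheory.{u, v, w} K) (A : T.Obj) : NCTheory.Cls T where
  C := T.kcl A
  map := fun _ hf _ hx => kcl_op (S_le_gen hf) hx
  one := mem_kcl.2 ⟨LinearMap.id, closed_gen.2.1 _ _ (T.cor_id _), rfl⟩

/-- The spans of the correspondences, as groups. -/
def grpS (T : NCTheory.{u, v, w} K) (X Y : T.Obj) : Maps K (T.H X) (T.H Y) :=
  (T.S X Y).toAddSubgroup

lemma gen_le (h : T.KunnethConj A) {X Y : T.Obj} {f : T.H X →ₗ[K] T.H Y}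
    (hf : f ∈ gen T A X Y) : f ∈ T.S X Y :=
  mem_gen.1 hf (grpS T) ⟨fun _ _ f hf c => Submodule.smul_mem _ c hf, fun _ _ f hf => of_cor hf,
    h.1, fun _ _ _ f hf g hg => S_comp hf hg, fun _ _ _ _ f hf g hg => S_ex hf hg⟩

lemma conj_iff [CharZero K] :
    (∀ n, T.kcl A (T.bi A n n) ≤ T.alg (T.bi A n n)) ↔ T.KunnethConj A := by
  constructor
  · intro h
    obtain ⟨π, hπ⟩ : ∃ π, π = evenProj (T.par A) := ⟨_, rfl⟩
    have hone : π ∈ T.S A A := by
      obtain ⟨c, hc, hinj, hsur⟩ := Pool.Agent.Y447.ZI.clas T (T.pow A 1)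
      have h0 : π ∈ gen T A A A := by rw [hπ]; exact closed_gen.2.2.1
      have h1 : (ex π (LinearMap.id : T.H T.one →ₗ[K] T.H T.one) :
          T.H (T.pow A 1) →ₗ[K] T.H (T.pow A 1)) ∈ gen T A (T.pow A 1) (T.pow A 1) :=
        closed_gen.2.2.2.2 _ _ _ _ _ h0 _ (closed_gen.2.1 _ _ (T.cor_id _))
      have h2 : (ex (ex π (LinearMap.id : T.H T.one →ₗ[K] T.H T.one))
            (LinearMap.id : T.H (T.op (T.pow A 1)) →ₗ[K] T.H (T.op (T.pow A 1))) :
          T.H (rr (T.pow A 1)) →ₗ[K] T.H (rr (T.pow A 1))) ∈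
            gen T A (rr (T.pow A 1)) (rr (T.pow A 1)) :=
        closed_gen.2.2.2.2 _ _ _ _ _ h1 _ (closed_gen.2.1 _ _ (T.cor_id _))
      have h3 : c T.e ∈ T.kcl A (rr (T.pow A 1)) := (cls T A).map c hc _ (cls T A).one
      have h4 := h 1 (kcl_op h2 h3)
      rw [alg_eq] at h4
      obtain ⟨w, hw, hwe⟩ := h4
      obtain ⟨u, hu, hue⟩ := hsur w hw
      obtain ⟨π', hπ'⟩ : ∃ π' : T.H (T.pow A 1) →ₗ[K] T.H (T.pow A 1),
          π' = (ex π (LinearMap.id : T.H T.one →ₗ[K] T.H T.one) :) := ⟨_, rfl⟩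
      have h5 : u - π' = 0 := by
        apply hinj
        have h6 : (ex (u - π')
            (LinearMap.id : T.H (T.op (T.pow A 1)) →ₗ[K] T.H (T.op (T.pow A 1))) :
            T.H (rr (T.pow A 1)) →ₗ[K] T.H (rr (T.pow A 1))) =
            ex u LinearMap.id - ex π' LinearMap.id := by
          rw [sub_eq_add_neg, ex_add_left, ← neg_one_smul K π', ex_smul_left,
            neg_one_smul, ← sub_eq_add_neg]
        rw [h6, LinearMap.sub_apply, sub_eq_zero, hπ']
        exact hue.trans hwe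
      have h7 : ex π (LinearMap.id : T.H T.one →ₗ[K] T.H T.one) ∈
          T.S (T.ten A T.one) (T.ten A T.one) := by
        have h8 : u = π' := sub_eq_zero.1 h5
        rw [hπ'] at h8
        rw [← h8]
        exact hu
      obtain ⟨ρ, hρ, ρ', hρ', h8, h9⟩ := exists_runit A
      have h10 : π = ρ ∘ₗ ex π (LinearMap.id : T.H T.one →ₗ[K] T.H T.one) ∘ₗ ρ' := by
        apply LinearMap.ext
        intro x
        rw [LinearMap.comp_apply, LinearMap.comp_apply, h9, ex_kx, LinearMap.id_apply, h8]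
      rw [h10]
      exact S_comp (S_comp hρ' h7) hρ
    have h11 : oddProj (T.par A) = LinearMap.id - π := by
      have h12 : (LinearMap.id : T.H A →ₗ[K] T.H A) = (2 : K)⁻¹ • ((2 : K) • LinearMap.id) := by
        rw [smul_smul, inv_mul_cancel₀ two_ne_zero, one_smul]
      conv_rhs => rw [h12]
      rw [hπ, oddProj, evenProj, ← smul_sub]
      congr 1
      rw [two_smul]
      abel
    refine ⟨?_, ?_⟩
    · rw [← hπ]; exact hone
    · rw [h11]; exact Submodule.sub_mem _ S_id hone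
  · intro h n x hx
    obtain ⟨φ, hφ, rfl⟩ := mem_kcl.1 hx
    rw [alg_eq]
    exact ⟨φ, gen_le h hφ, rfl⟩

/-- The index law for the classes generated by correspondences and the Künneth projector. -/
theorem result {K : Type u} [Field K] [CharZero K] (T : NCTheory.{u, v, w} K) (A : T.Obj)
    [Nontrivial (T.H A)] :
    ∃ N : ℕ∞, 1 ≤ N ∧ T.HasIndex (T.kcl A) A N ∧
      (N = 1 ↔ T.KunnethConj A ∧ ∀ m n, T.StdD (T.bi A m n)) ∧
      (N ≠ ⊤ → (∀ m n, T.StdD (T.bi A m n)) ∧ T.Generated (T.kcl A) A N) := by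
  rw [← conj_iff]
  exact NCTheory.index_law (cls T A) A

end Pool.Agent.Results.MP_eadf0f_ag.IndexLaw
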